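import Pool.Agent.Q28.PT.Defs
import Pool.Agent.Q28.AT.Box

/-!
# The second moment over all tuples of conjugates, for general groups
-/

namespace Pool.Agent.Q28.PT

open Finset MeasureTheory Pool.Agent.Q28.EQ Pool.Agent.Q28.AT Pool.Agent.Q155.HK

variable {G : Type} [Group G] {GF : Subgroup G} {n : ℕ} {S : Fin n → Component G GF}

theorem conj_finite {x : Point S} (hx : ∀ j, (orb GF ⊤ (x j)).Finite) : (Conj S x).Finite :=
  Set.Finite.pi' hx

theorem self_mem_conj (x : Point S) : x ∈ Conj S x := fun j => self_mem ⊤ (x j)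

theorem shift_mem {x z : Point S} (hz : z ∈ Conj S x) (k : Fin n → GF) :
    (fun j => k j • z j) ∈ Conj S x := fun j => smul_mem (hz j) (k j) (Subgroup.mem_top _)

/-- the finite abelian group through which `U` acts -/
theorem exists_quotient {x : Point S} (hx : ∀ j, (orb GF ⊤ (x j)).Finite) {U : Subgroup G}
    (hU : U ≤ GF) (hab : ∀ g h : GF, (g : G) ∈ U → (h : G) ∈ U → ∀ j, ∀ p ∈ orb GF ⊤ (x j),
      (g * h) • p = (h * g) • p) :
    ∃ (A : Type) (_ : CommGroup A) (_ : Fintype A) (π : U →* A), Function.Surjective π ∧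
      ∀ u, π u = 1 → ∀ j, ∀ p ∈ orb GF ⊤ (x j), (⟨u, hU u.2⟩ : GF) • p = p := by
  classical
  have hfin : Finite (Conj S x) := (conj_finite hx).to_subtype
  let g : U → GF := fun u => ⟨u, hU u.2⟩
  have hg1 : g 1 = 1 := rfl
  have hgm : ∀ u v, g (u * v) = g u * g v := fun _ _ => rfl
  let ρ : U →* Equiv.Perm (Conj S x) :=
    { toFun := fun u =>
        { toFun := fun z => ⟨fun j => g u • z.1 j, shift_mem z.2 fun _ => g u⟩
          invFun := fun z => ⟨fun j => (g u)⁻¹ • z.1 j, shift_mem z.2 fun _ => (g u)⁻¹⟩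
          left_inv := fun z => Subtype.ext (funext fun j => inv_smul_smul _ _)
          right_inv := fun z => Subtype.ext (funext fun j => smul_inv_smul _ _) }
      map_one' := by
        refine Equiv.ext fun z => Subtype.ext (funext fun j => ?_)
        change g 1 • z.1 j = z.1 j
        rw [hg1, one_smul]
      map_mul' := fun u v => by
        refine Equiv.ext fun z => Subtype.ext (funext fun j => ?_)
        change g (u * v) • z.1 j = g u • g v • z.1 j
        rw [hgm, mul_smul] }
  have hρ : ∀ u (z : Conj S x) j, (ρ u z).1 j = g u • z.1 j := fun _ _ _ => rfl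
  have hcomm : ∀ a b : ρ.range, a * b = b * a := by
    rintro ⟨_, u, rfl⟩ ⟨_, v, rfl⟩
    refine Subtype.ext (Equiv.ext fun z => Subtype.ext (funext fun j => ?_))
    change g u • g v • z.1 j = g v • g u • z.1 j
    rw [smul_smul, smul_smul]
    exact hab _ _ u.2 v.2 j _ (z.2 j)
  have hfr : Finite ρ.range := inferInstance
  refine ⟨ρ.range, { (inferInstance : Group ρ.range) with mul_comm := hcomm }, Fintype.ofFinite _,
    ρ.rangeRestrict, ρ.rangeRestrict_surjective, fun u hu j p hp => ?_⟩
  have h1 : ρ u = 1 := congrArg Subtype.val hu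
  let z : Conj S x := ⟨Function.update x j p, fun k => by
    by_cases hk : k = j
    · subst hk
      rw [Function.update_self]
      exact hp
    · rw [Function.update_of_ne hk]
      exact self_mem ⊤ (x k)⟩
  have h2 : (ρ u z).1 j = z.1 j := by rw [h1]; rfl
  rw [hρ] at h2
  have h3 : z.1 j = p := Function.update_self j p x
  rw [h3] at h2
  exact h2

/-- averages over the box are invariant under independent translations -/
theorem avg_shift (x : Point S) (k : Fin n → GF) (h : Point S → ℝ) :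
    avg (Conj S x) (fun z => h fun j => k j • z j) = avg (Conj S x) h := by
  rw [avg, avg]
  congr 1
  refine finsum_mem_eq_of_bijOn (fun z : Point S => fun j => k j • z j) ⟨fun z hz => ?_, ?_, ?_⟩
    fun z _ => rfl
  · exact shift_mem hz k
  · intro z _ z' _ hzz
    funext j
    have := congrFun hzz j
    exact smul_left_cancel (k j) this
  · intro z hz
    refine ⟨fun j => (k j)⁻¹ • z j, shift_mem hz fun j => (k j)⁻¹, ?_⟩
    funext j
    exact smul_inv_smul (k j) (z j)

/-- averages over the box of means over independent translations -/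
theorem avg_box_mean {x : Point S} (hx : (Conj S x).Finite) {ι : Type*} [Fintype ι]
    [Nonempty ι] (k : ι → Fin n → GF) (h : Point S → ℝ) :
    avg (Conj S x) h = avg (Conj S x) fun z => mean fun i => h fun j => k i j • z j := by
  rw [avg_mean hx fun i z => h fun j => k i j • z j]
  simp only [avg_shift x]
  rw [mean_const]

/-- **the second moment** -/
theorem second_moment {x : Point S} (hx : ∀ j, (orb GF ⊤ (x j)).Finite) {U : Subgroup G}
    (hU : U ≤ GF) (hab : ∀ g h : GF, (g : G) ∈ U → (h : G) ∈ U → ∀ j, ∀ p ∈ orb GF ⊤ (x j),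
      (g * h) • p = (h * g) • p)
    (φ : ∀ j, (S j).P → ℝ) {M ε κ c : ℝ} (hM1 : 1 ≤ M) (hM : ∀ j p, |φ j p| ≤ M) (hε : 0 ≤ ε)
    (h1 : ∀ z ∈ Conj S x, |∏ j, avg (orb GF U (z j)) (φ j) - c| ≤ κ)
    (h2 : ∀ j, ∀ p ∈ orb GF ⊤ (x j), ∀ t : (S j).P → ℂ, Twist GF U p t →
      ‖(∑ᶠ y ∈ orb GF U p, t y * φ j y) / (orb GF U p).ncard‖ ≤ ε) :
    avg (Conj S x) (fun z => (avg (orb GF U z) (fun y => ∏ j, φ j (y j)) - c) ^ 2) ≤
      n * M ^ (2 * n + 1) * ε + κ ^ 2 := by
  classical
  obtain ⟨A, _, _, π, hπ, hker⟩ := exists_quotient hx hU hab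
  have hcf := conj_finite hx
  have hfix : ∀ j, ∀ p ∈ orb GF ⊤ (x j), Fixes hU π p := fun j p hp u hu => hker u hu j p hp
  have hfix' : ∀ z ∈ Conj S x, Fixes hU π z := fun z hz u hu => by
    funext j
    exact hfix j (z j) (hz j) u hu
  have hne : (Conj S x).Nonempty := ⟨x, self_mem_conj x⟩
  rw [avg_box_mean hcf (fun (σ : Fin n → Additive A) j => lift hU hπ (σ j).toMul)]
  refine (avg_mono hcf (g := fun _ => n * M ^ (2 * n + 1) * ε + κ ^ 2)
    fun z hz => ?_).trans (avg_const hcf hne _).le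
  have h3 := variance (α := Additive A) (fun j a => φ j (lift hU hπ a.toMul • z j)) hM1
    (fun j a => hM j _) hε (fun j ψ hψ => four_le hU hπ (hfix j _ (hz j)) (φ j) hε
      (h2 j _ (hz j)) ψ hψ) c
  have h4 : ∀ j, mean (fun a : Additive A => φ j (lift hU hπ a.toMul • z j)) =
      avg (orb GF U (z j)) (φ j) := fun j => by
    rw [avg_lift_real hU hπ (hfix j _ (hz j))]
    exact mean_equiv Additive.toMul fun a => φ j (lift hU hπ a • z j)
  simp only [h4] at h3
  have h5 : ∀ σ : Fin n → Additive A,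
      avg (orb GF U fun j => lift hU hπ (σ j).toMul • z j) (fun y => ∏ j, φ j (y j)) =
        mean fun τ : Additive A => ∏ j, φ j (lift hU hπ (σ j + τ).toMul • z j) := fun σ => by
    rw [avg_lift_real hU hπ (hfix' _ (shift_mem hz fun j => lift hU hπ (σ j).toMul))]
    rw [← mean_equiv Additive.toMul]
    refine congrArg mean (funext fun τ => ?_)
    refine Finset.prod_congr rfl fun j _ => ?_
    rw [toMul_add, mul_comm, lift_mul hU hπ (hfix j _ (hz j))]
    rfl
  simp only [h5]
  refine h3.trans ?_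
  have h6 := h1 z hz
  have h7 : (∏ j, avg (orb GF U (z j)) (φ j) - c) ^ 2 ≤ κ ^ 2 := by
    rw [← sq_abs]
    exact pow_le_pow_left₀ (abs_nonneg _) h6 2
  linarith

/-- **the first moment for the full Galois orbits** -/
theorem first_moment {x : Point S} (hx : ∀ j, (orb GF ⊤ (x j)).Finite) (U : Subgroup G)
    (Φ : Point S → ℝ) {V r c : ℝ} (hr : 0 < r)
    (h : avg (Conj S x) (fun z => (avg (orb GF U z) Φ - c) ^ 2) ≤ V) :
    avg (Conj S x) (fun z => |avg (orb GF ⊤ z) Φ - c|) ≤ r + V / r := by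
  have hS := conj_finite hx
  have hne : (Conj S x).Nonempty := ⟨x, self_mem_conj x⟩
  have horb : ∀ z ∈ Conj S x, orb GF ⊤ z ⊆ Conj S x := by
    rintro z hz _ ⟨g, -, rfl⟩
    exact shift_mem hz fun _ => g
  have hof : ∀ z ∈ Conj S x, (orb GF ⊤ z).Finite := fun z hz => hS.subset (horb z hz)
  have h1 : ∀ z ∈ Conj S x, |avg (orb GF ⊤ z) Φ - c| ≤
      avg (orb GF ⊤ z) fun y => |avg (orb GF U y) Φ - c| := fun z hz => by
    have h2 := avg_avg (hof z hz) (fun y => orb GF U y)
      (fun y hy => (orb_mono le_top y).trans (orb_congr hy).le) (fun y _ => self_mem U y)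
      (fun y _ w hw => orb_congr hw) Φ
    have h3 : avg (orb GF ⊤ z) Φ - c = avg (orb GF ⊤ z) fun y => avg (orb GF U y) Φ - c := by
      rw [avg_sub (hof z hz), h2, avg_const (hof z hz) ⟨z, self_mem ⊤ z⟩]
    rw [h3]
    exact abs_avg_le (hof z hz) _
  have h4 := avg_avg hS (fun y => orb GF ⊤ y) horb (fun y _ => self_mem ⊤ y)
    (fun y _ w hw => orb_congr hw) fun y => |avg (orb GF U y) Φ - c|
  refine (avg_mono hS h1).trans ?_
  rw [h4]
  have h5 : avg (Conj S x) (fun y => |avg (orb GF U y) Φ - c|) ≤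
      avg (Conj S x) fun y => r + 1 / r * (avg (orb GF U y) Φ - c) ^ 2 :=
    avg_mono hS fun y _ => by
      set t := avg (orb GF U y) Φ - c
      by_cases ht : |t| ≤ r
      · have : 0 ≤ 1 / r * t ^ 2 := by positivity
        linarith
      · push Not at ht
        have h6 : |t| ≤ 1 / r * t ^ 2 := by
          rw [one_div_mul_eq_div, le_div_iff₀ hr, ← sq_abs, sq]
          exact mul_le_mul_of_nonneg_left ht.le (abs_nonneg _)
        linarith
  refine h5.trans ?_
  rw [avg_add hS, avg_const hS hne, avg_mul hS, one_div_mul_eq_div]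
  gcongr

end Pool.Agent.Q28.PT
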