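import Pool.Agent.Q28.AT.Orb

/-!
# Products of Shimura varieties: definitions
-/

namespace Pool.Agent.Q28.PT

open MeasureTheory Filter Topology Pool.Agent.Q28.EQ Pool.Agent.Q28.AT

/-- A connected component of a Shimura variety, defined over the number field `F`, with its special
points. `G` is the absolute Galois group of `ℚ` and `GF` the absolute Galois group of `F`. -/
structure Component (G : Type) [Group G] (GF : Subgroup G) where
  /-- the complex points -/
  Y : Type
  [top : TopologicalSpace Y]
  [t2 : T2Space Y]
  [lc : LocallyCompactSpace Y]
  [sc : SecondCountableTopology Y]
  [meas : MeasurableSpace Y]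
  [borel : BorelSpace Y]
  /-- the normalised invariant measure -/
  m : Measure Y
  [prob : IsProbabilityMeasure m]
  /-- the special points -/
  P : Type
  /-- their action of the Galois group of `F` -/
  [act : MulAction GF P]
  /-- the embedding of the special points in the complex points -/
  val : P → Y

attribute [instance] Component.top Component.t2 Component.lc Component.sc Component.meas
  Component.borel Component.prob Component.act

variable {G : Type} [Group G] {GF : Subgroup G} {n : ℕ}

/-- the special points of the product of the `S j`: all coordinates are special -/
abbrev Point (S : Fin n → Component G GF) : Type := ∀ j, (S j).P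

/-- The tuples of conjugates of the coordinates of the special point `x`: all special points `z`
whose coordinate `z j` is a Galois conjugate of `x j`, for all `j` independently. -/
def Conj (S : Fin n → Component G GF) (x : Point S) : Set (Point S) :=
  {z | ∀ j, z j ∈ orb GF ⊤ (x j)}

/-- The Galois orbits of the special points `z i` of the product converge weakly to the invariant
measure. -/
def Equidistributed (S : Fin n → Component G GF) (z : ℕ → Point S) : Prop :=
  ∀ f : (∀ j, (S j).Y) → ℝ, Continuous f → HasCompactSupport f →
    Tendsto (fun i => avg (orb GF ⊤ (z i)) fun y => f fun j => (S j).val (y j)) atTop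
      (𝓝 (∫ y, f y ∂(Measure.pi fun j => (S j).m)))

/-- Equidistribution on the single components, with twists. The Galois orbits of the special points
`x i j` are finite. `U i` is the absolute Galois group of a number field containing `F` and the
reflex fields of the Mumford-Tate tori of all conjugates of the points `x i j`: it acts on these
points through an abelian group (reciprocity law). For all `j`, the averages over the orbits under
`U i` of the conjugates of `x i j` converge to the invariant measure, and those twisted by a
nontrivial character of `U i` (`Twist`) tend to zero, uniformly in the character and the conjugate. -/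
structure Twisted (S : Fin n → Component G GF) (x : ℕ → Point S) (U : ℕ → Subgroup G) : Prop where
  finite : ∀ i j, (orb GF ⊤ (x i j)).Finite
  le : ∀ i, U i ≤ GF
  abelian : ∀ i, ∀ g h : GF, (g : G) ∈ U i → (h : G) ∈ U i → ∀ j, ∀ p ∈ orb GF ⊤ (x i j),
    (g * h) • p = (h * g) • p
  weyl : ∀ j, ∀ f : (S j).Y → ℝ, Continuous f → HasCompactSupport f → ∀ ε : ℝ, 0 < ε →
    ∀ᶠ i in atTop, ∀ p ∈ orb GF ⊤ (x i j),
      |avg (orb GF (U i) p) (fun y => f ((S j).val y)) - ∫ y, f y ∂(S j).m| ≤ ε ∧
      ∀ c : (S j).P → ℂ, Twist GF (U i) p c →
        ‖(∑ᶠ y ∈ orb GF (U i) p, c y * f ((S j).val y)) / (orb GF (U i) p).ncard‖ ≤ ε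

end Pool.Agent.Q28.PT
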