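import Pool.Agent.Q28.PT.Box
import Pool.Agent.Q28.AT.Diag

/-!
# Equidistribution of the Galois orbits of almost all tuples of conjugates on products
-/

namespace Pool.Agent.Q28.PT

open Filter Topology Finset MeasureTheory Pool.Agent.Q28.EQ Pool.Agent.Q28.AT Pool.Agent.Q155.HK

variable {G : Type} [Group G] {GF : Subgroup G} {n : ℕ} {S : Fin n → Component G GF}
  {x : ℕ → Point S} {U : ℕ → Subgroup G}

/-- products of functions of one coordinate -/
theorem prod_limit (hT : Twisted S x U) (φ : ∀ j, (S j).Y → ℝ)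
    (hφ : ∀ j, Continuous (φ j) ∧ HasCompactSupport (φ j)) :
    Tendsto (fun i => avg (Conj S (x i)) fun z =>
      |avg (orb GF ⊤ z) (fun y => ∏ j, φ j ((S j).val (y j))) - ∏ j, ∫ y, φ j y ∂(S j).m|)
      atTop (𝓝 0) := by
  classical
  rw [Metric.tendsto_nhds]
  intro e he
  obtain ⟨M, hM1, hM⟩ : ∃ M : ℝ, 1 ≤ M ∧ ∀ j y, |φ j y| ≤ M := by
    have h1 : ∀ j, ∃ M : ℝ, ∀ y, |φ j y| ≤ M := fun j => by
      obtain ⟨M, hM⟩ := (hφ j).2.exists_bound_of_continuous (hφ j).1
      exact ⟨M, fun y => by rw [← Real.norm_eq_abs]; exact hM y⟩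
    choose M hM using h1
    refine ⟨1 + ∑ j, |M j|, ?_, fun j y => ?_⟩
    · have : 0 ≤ ∑ j, |M j| := Finset.sum_nonneg fun j _ => abs_nonneg _
      linarith
    · have h2 : |M j| ≤ ∑ j, |M j| :=
        Finset.single_le_sum (f := fun j => |M j|) (fun i _ => abs_nonneg _) (Finset.mem_univ j)
      linarith [hM j y, le_abs_self (M j)]
  have hM0 : 0 ≤ M := zero_le_one.trans hM1
  set ε0 := e / 2 with hε0
  have hε0' : 0 < ε0 := half_pos he
  obtain ⟨δ, hδ, hprod⟩ := prod_near (fun j => ∫ y, φ j y ∂(S j).m) (ε0 / 4) (by positivity)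
  set ε1 := ε0 ^ 2 / (8 * (n * M ^ (2 * n + 1) + 1)) with hε1
  have hε1' : 0 < ε1 := by positivity
  have hev : ∀ᶠ i in atTop, ∀ j, ∀ p ∈ orb GF ⊤ (x i j),
      |avg (orb GF (U i) p) (fun y => φ j ((S j).val y)) - ∫ y, φ j y ∂(S j).m| ≤ min δ ε1 ∧
      ∀ c : (S j).P → ℂ, Twist GF (U i) p c →
        ‖(∑ᶠ y ∈ orb GF (U i) p, c y * φ j ((S j).val y)) / (orb GF (U i) p).ncard‖ ≤
          min δ ε1 := by
    rw [eventually_all]
    exact fun j => hT.weyl j (φ j) (hφ j).1 (hφ j).2 _ (lt_min hδ hε1')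
  filter_upwards [hev] with i hi
  have h2 := second_moment (hT.finite i) (hT.le i) (hT.abelian i)
    (fun j p => φ j ((S j).val p)) (κ := ε0 / 4) (ε := ε1)
    (c := ∏ j, ∫ y, φ j y ∂(S j).m) hM1 (fun j p => hM j _) hε1'.le
    (fun z hz => hprod _ fun j => (hi j _ (hz j)).1.trans (min_le_left _ _))
    (fun j p hp t ht => ((hi j p hp).2 t ht).trans (min_le_right _ _))
  have h3 := first_moment (hT.finite i) (U i) (fun y => ∏ j, φ j ((S j).val (y j)))
    (r := ε0 / 2) (half_pos hε0') h2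
  have hne : (Conj S (x i)).Nonempty := ⟨x i, self_mem_conj (x i)⟩
  have hcf := conj_finite (hT.finite i)
  have h0 : 0 ≤ avg (Conj S (x i)) fun z =>
      |avg (orb GF ⊤ z) (fun y => ∏ j, φ j ((S j).val (y j))) - ∏ j, ∫ y, φ j y ∂(S j).m| := by
    have h4 := avg_mono hcf (f := fun _ => (0 : ℝ)) (g := fun z =>
      |avg (orb GF ⊤ z) (fun y => ∏ j, φ j ((S j).val (y j))) - ∏ j, ∫ y, φ j y ∂(S j).m|)
      fun z _ => abs_nonneg _
    rwa [avg_const hcf hne] at h4
  rw [Real.dist_eq, sub_zero, abs_of_nonneg h0]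
  refine lt_of_le_of_lt h3 ?_
  have h5 : n * M ^ (2 * n + 1) * ε1 ≤ ε0 ^ 2 / 8 := by
    rw [hε1, mul_div_assoc', div_le_div_iff₀ (by positivity) (by norm_num)]
    have h6 : 0 ≤ n * M ^ (2 * n + 1) := by positivity
    nlinarith [sq_nonneg ε0]
  have h7 : (n * M ^ (2 * n + 1) * ε1 + (ε0 / 4) ^ 2) / (ε0 / 2) ≤ ε0 / 2 := by
    rw [div_le_iff₀ (half_pos hε0')]
    nlinarith
  have h8 : ε0 < e := by
    rw [hε0]
    linarith
  linarith

/-- all continuous functions with compact support -/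
theorem limit (hT : Twisted S x U) (f : (∀ j, (S j).Y) → ℝ) (hf : Continuous f)
    (hc : HasCompactSupport f) :
    Tendsto (fun i => avg (Conj S (x i)) fun z =>
      |avg (orb GF ⊤ z) (fun y => f fun j => (S j).val (y j)) -
        ∫ y, f y ∂(Measure.pi fun j => (S j).m)|) atTop (𝓝 0) := by
  rw [Metric.tendsto_nhds]
  intro ε hε
  obtain ⟨ι, i1, c, g, hg, hfg⟩ := Pool.Agent.Q155.HK.dens f hf hc (ε / 4) (by positivity)
  have hint : ∀ a, Integrable (fun y : (∀ j, (S j).Y) => ∏ j, g a j (y j))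
      (Measure.pi fun j => (S j).m) := fun a =>
    Integrable.fintype_prod_dep fun j => (hg a j).1.integrable_of_hasCompactSupport (hg a j).2
  have hfint : Integrable f (Measure.pi fun j => (S j).m) :=
    hf.integrable_of_hasCompactSupport hc
  have hI : |∫ y, f y ∂(Measure.pi fun j => (S j).m) -
      ∑ a, c a * ∏ j, ∫ y, g a j y ∂(S j).m| ≤ ε / 4 := by
    have e1 : ∑ a, c a * ∏ j, ∫ y, g a j y ∂(S j).m =
        ∫ y, ∑ a, c a * ∏ j, g a j (y j) ∂(Measure.pi fun j => (S j).m) := by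
      rw [integral_finsetSum _ fun a _ => (hint a).const_mul (c a)]
      refine Finset.sum_congr rfl fun a _ => ?_
      rw [integral_const_mul, integral_fintype_prod_eq_prod]
    rw [e1, ← integral_sub hfint (integrable_finsetSum _ fun a _ => (hint a).const_mul (c a))]
    rw [← Real.norm_eq_abs]
    refine (norm_integral_le_of_norm_le_const (C := ε / 4)
      (Filter.Eventually.of_forall fun y => ?_)).trans ?_
    · rw [Real.norm_eq_abs]; exact hfg y
    · simp
  have hev : Tendsto (fun i => ∑ a, |c a| * avg (Conj S (x i)) fun z =>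
      |avg (orb GF ⊤ z) (fun y => ∏ j, g a j ((S j).val (y j))) - ∏ j, ∫ y, g a j y ∂(S j).m|)
      atTop (𝓝 (∑ a, |c a| * 0)) :=
    tendsto_finsetSum _ fun a _ => Tendsto.const_mul _ (prod_limit hT (g a) (hg a))
  have hz : ∑ a, |c a| * (0 : ℝ) = 0 := by simp
  rw [hz] at hev
  filter_upwards [Metric.tendsto_nhds.mp hev (ε / 4) (by positivity)] with i h1
  have hS := conj_finite (hT.finite i)
  have hne : (Conj S (x i)).Nonempty := ⟨x i, self_mem_conj (x i)⟩
  have hof : ∀ z ∈ Conj S (x i), (orb GF ⊤ z).Finite := fun z hz' => hS.subset (by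
    rintro _ ⟨k, -, rfl⟩
    exact shift_mem hz' fun _ => k)
  have h2 : avg (Conj S (x i)) (fun z =>
      |avg (orb GF ⊤ z) (fun y => f fun j => (S j).val (y j)) -
        ∫ y, f y ∂(Measure.pi fun j => (S j).m)|) ≤
      avg (Conj S (x i)) fun z => ε / 2 + ∑ a, |c a| *
        |avg (orb GF ⊤ z) (fun y => ∏ j, g a j ((S j).val (y j))) -
          ∏ j, ∫ y, g a j y ∂(S j).m| := avg_mono hS fun z hz' => by
    have h3 := avg_sub_le (hof z hz') ⟨z, self_mem ⊤ z⟩ (fun y => f fun j => (S j).val (y j))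
      (fun y => ∑ a, c a * ∏ j, g a j ((S j).val (y j))) (ε / 4) (fun y => hfg _)
    rw [avg_lin (hof z hz') c fun a y => ∏ j, g a j ((S j).val (y j))] at h3
    have h4 : |∑ a, c a * avg (orb GF ⊤ z) (fun y => ∏ j, g a j ((S j).val (y j))) -
        ∑ a, c a * ∏ j, ∫ y, g a j y ∂(S j).m| ≤ ∑ a, |c a| *
        |avg (orb GF ⊤ z) (fun y => ∏ j, g a j ((S j).val (y j))) -
          ∏ j, ∫ y, g a j y ∂(S j).m| := by
      rw [← Finset.sum_sub_distrib]
      refine (Finset.abs_sum_le_sum_abs _ _).trans (Finset.sum_le_sum fun a _ => ?_)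
      rw [← mul_sub, abs_mul]
    have h5 := abs_sub_le (avg (orb GF ⊤ z) fun y => f fun j => (S j).val (y j))
      (∑ a, c a * avg (orb GF ⊤ z) (fun y => ∏ j, g a j ((S j).val (y j))))
      (∫ y, f y ∂(Measure.pi fun j => (S j).m))
    have h6 := abs_sub_le
      (∑ a, c a * avg (orb GF ⊤ z) (fun y => ∏ j, g a j ((S j).val (y j))))
      (∑ a, c a * ∏ j, ∫ y, g a j y ∂(S j).m) (∫ y, f y ∂(Measure.pi fun j => (S j).m))
    rw [abs_sub_comm] at hI
    linarith
  have h0 : 0 ≤ avg (Conj S (x i)) fun z =>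
      |avg (orb GF ⊤ z) (fun y => f fun j => (S j).val (y j)) -
        ∫ y, f y ∂(Measure.pi fun j => (S j).m)| := by
    have h4 := avg_mono hS (f := fun _ => (0 : ℝ)) (g := fun z =>
      |avg (orb GF ⊤ z) (fun y => f fun j => (S j).val (y j)) -
        ∫ y, f y ∂(Measure.pi fun j => (S j).m)|) fun z _ => abs_nonneg _
    rwa [avg_const hS hne] at h4
  rw [Real.dist_eq, sub_zero, abs_of_nonneg h0]
  refine lt_of_le_of_lt h2 ?_
  rw [avg_add hS, avg_const hS hne, avg_lin hS (fun a => |c a|) fun a z =>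
    |avg (orb GF ⊤ z) (fun y => ∏ j, g a j ((S j).val (y j))) - ∏ j, ∫ y, g a j y ∂(S j).m|]
  rw [Real.dist_eq, sub_zero] at h1
  have h7 := (abs_lt.1 h1).2
  linarith

theorem good_choice (hT : Twisted S x U) :
    ∃ B : ℕ → Set (Point S), (∀ i, B i ⊆ Conj S (x i)) ∧
      Tendsto (fun i => ((B i).ncard : ℝ) / (Conj S (x i)).ncard) atTop (𝓝 1) ∧
      ∀ z : ℕ → Point S, (∀ᶠ i in atTop, z i ∈ B i) → Equidistributed S z := by
  classical
  obtain ⟨f, hf, hdense⟩ := exists_family (∀ j, (S j).Y)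
  -- the deviation of the orbit of `z` for the function `f m`
  obtain ⟨D, hD⟩ : ∃ D : ℕ → Point S → ℝ, ∀ m z, D m z =
      |avg (orb GF ⊤ z) (fun y => f m fun j => (S j).val (y j)) -
        ∫ y, f m y ∂(Measure.pi fun j => (S j).m)| := ⟨_, fun _ _ => rfl⟩
  have hlim : ∀ m, Tendsto (fun i => avg (Conj S (x i)) (D m)) atTop (𝓝 0) := fun m => by
    have := limit hT (f m) (hf m).1 (hf m).2
    refine this.congr fun i => ?_
    exact congrArg _ (funext fun z => (hD m z).symm)
  have hfin := fun i => conj_finite (hT.finite i)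
  have hne : ∀ i, (Conj S (x i)).Nonempty := fun i => ⟨x i, self_mem_conj (x i)⟩
  -- the proportion of bad tuples
  set T : ℕ → Point S → ℝ := fun M z => ∑ m ∈ Finset.range M, D m z with hT'
  have hTlim : ∀ M : ℕ, Tendsto (fun i => avg (Conj S (x i)) (T M) * (M + 1)) atTop
      (𝓝 0) := fun M => by
    have h1 : Tendsto (fun i => ∑ m ∈ Finset.range M, avg (Conj S (x i)) (D m)) atTop
        (𝓝 (∑ m ∈ Finset.range M, (0 : ℝ))) := tendsto_finsetSum _ fun m _ => hlim m
    rw [Finset.sum_const_zero] at h1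
    have h2 := h1.mul_const ((M : ℝ) + 1)
    rw [zero_mul] at h2
    refine h2.congr fun i => ?_
    congr 1
    simp only [avg_eq (hfin i), hT']
    rw [Finset.sum_comm, Finset.sum_div]
  obtain ⟨M, hM1, hM2⟩ := diag _ hTlim
  set B : ℕ → Set (Point S) := fun i =>
    {z ∈ Conj S (x i) | T (M i) z ≤ 1 / ((M i : ℝ) + 1)} with hB
  refine ⟨B, fun i => Set.sep_subset _ _, ?_, fun z hz g hg hgc => ?_⟩
  · have h1 : ∀ i, ((B i).ncard : ℝ) / (Conj S (x i)).ncard =
        1 - (({z ∈ Conj S (x i) | 1 / ((M i : ℝ) + 1) < T (M i) z}.ncard : ℕ) : ℝ) /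
          (Conj S (x i)).ncard := fun i => by
      have hN : ((Conj S (x i)).ncard : ℝ) ≠ 0 := by
        exact_mod_cast ((Set.ncard_pos (hfin i)).2 (hne i)).ne'
      have h2 : (B i).ncard +
          {z ∈ Conj S (x i) | 1 / ((M i : ℝ) + 1) < T (M i) z}.ncard =
          (Conj S (x i)).ncard := by
        rw [← Set.ncard_union_eq ?_ ((hfin i).subset (Set.sep_subset _ _))
          ((hfin i).subset (Set.sep_subset _ _))]
        · congr 1
          ext z
          simp only [Set.mem_union, Set.mem_ofPred_eq]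
          constructor
          · rintro (h | h)
            · exact h.1
            · exact h.1
          · intro h
            rcases le_or_gt (T (M i) z) (1 / ((M i : ℝ) + 1)) with h' | h'
            · exact Or.inl ⟨h, h'⟩
            · exact Or.inr ⟨h, h'⟩
        · rw [Set.disjoint_left]
          rintro z ⟨-, h⟩ ⟨-, h'⟩
          exact absurd h (not_le.2 h')
      rw [eq_sub_iff_add_eq, ← add_div, ← h2]
      push_cast
      rw [div_self]
      rw [← h2] at hN
      exact_mod_cast hN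
    have h3 : Tendsto (fun i =>
        (({z ∈ Conj S (x i) | 1 / ((M i : ℝ) + 1) < T (M i) z}.ncard : ℕ) : ℝ) /
          (Conj S (x i)).ncard) atTop (𝓝 0) := by
      refine squeeze_zero (fun i => by positivity) (fun i => ?_) hM2
      have h4 := markov (hfin i) (T (M i))
        (fun z => Finset.sum_nonneg fun m _ => by rw [hD]; exact abs_nonneg _)
        (r := 1 / ((M i : ℝ) + 1)) (by positivity)
      rwa [div_div_eq_mul_div, div_one] at h4
    have h5 := h3.const_sub 1
    rw [sub_zero] at h5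
    exact h5.congr fun i => (h1 i).symm
  · rw [Metric.tendsto_nhds]
    intro ε hε
    obtain ⟨m, hm⟩ := hdense g hg hgc (ε / 4) (by positivity)
    have hsmall : Tendsto (fun i => 1 / ((M i : ℝ) + 1)) atTop (𝓝 0) :=
      (tendsto_one_div_add_atTop_nhds_zero_nat (𝕜 := ℝ)).comp hM1
    filter_upwards [hz, hM1.eventually_gt_atTop m,
      hsmall.eventually_lt_const (show (0 : ℝ) < ε / 4 by positivity)] with i hi1 hi2 hi3
    have hof : (orb GF ⊤ (z i)).Finite := (hfin i).subset (by
      rintro _ ⟨k, -, rfl⟩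
      exact shift_mem hi1.1 fun _ => k)
    have h6 : D m (z i) ≤ ε / 4 := by
      refine le_trans ?_ hi3.le
      refine le_trans ?_ hi1.2
      exact Finset.single_le_sum (f := fun m => D m (z i))
        (fun m _ => by rw [hD]; exact abs_nonneg _) (Finset.mem_range.2 hi2)
    rw [hD] at h6
    have h7 := avg_sub_le hof ⟨z i, self_mem ⊤ (z i)⟩ (fun y => g fun j => (S j).val (y j))
      (fun y => f m fun j => (S j).val (y j)) (ε / 4) (fun y => hm _)
    have hgint : Integrable g (Measure.pi fun j => (S j).m) :=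
      hg.integrable_of_hasCompactSupport hgc
    have hfint : Integrable (f m) (Measure.pi fun j => (S j).m) :=
      (hf m).1.integrable_of_hasCompactSupport (hf m).2
    have h8 : |∫ y, g y ∂(Measure.pi fun j => (S j).m) -
        ∫ y, f m y ∂(Measure.pi fun j => (S j).m)| ≤ ε / 4 := by
      rw [← integral_sub hgint hfint, ← Real.norm_eq_abs]
      refine (norm_integral_le_of_norm_le_const (C := ε / 4)
        (Filter.Eventually.of_forall fun y => ?_)).trans ?_
      · rw [Real.norm_eq_abs]; exact hm y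
      · simp
    rw [Real.dist_eq]
    rw [abs_le] at h6 h7 h8
    rw [abs_lt]
    constructor <;> linarith [h6.1, h6.2, h7.1, h7.2, h8.1, h8.2]

end Pool.Agent.Q28.PT
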